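import Pool.Agent.MUP.Final
import Pool.Agent.RC40.L1

/-!
# MP_388894_al: the question for braided `C` with semisimple Mueger centre, characteristic zero
-/

open CategoryTheory MonoidalCategory Limits Abelian

universe w w' v u

attribute [local instance] CategoryTheory.Abelian.hasFiniteBiproducts

namespace Pool.Agent.Results.MP_388894_al.BraidedCase

open Pool.Agent.MUG

/-- Let `k` be an algebraically closed field of characteristic zero and `C` a braided finite
tensor category over `k` which satisfies FGC and whose transparent objects form a semisimple
category (every epimorphism from a transparent object splits). Then the centralizer of every class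
of objects of the Drinfeld center of `C` satisfies FGC. -/
theorem result {k : Type*} [Field k] [IsAlgClosed k] [CharZero k] {C : Type u} [Category.{v} C]
    [Abelian C] [Linear k C] [MonoidalCategory C] [MonoidalPreadditive C] [MonoidalLinear k C]
    [RigidCategory C] [BraidedCategory C] [HasExt.{w} C] (hC : IsFinite k C)
    (hss : ∀ ⦃X Y : C⦄ (f : X ⟶ Y), (∀ U, Comm X U) → Epi f → ∃ s : Y ⟶ X, s ≫ f = 𝟙 Y)
    (hF : FGC.{w} k C) (B : ObjectProperty (Center C))
    [HasExt.{w'} (centralizer B).FullSubcategory] :
    FGC.{w'} k (centralizer B).FullSubcategory := by
  have : HasExt.{max u v} (Center C) := HasExt.standard _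
  have h : FGC.{max u v} k (Center C) := Pool.Agent.RC40.fgc_center_of_ss hC hss hF
  exact Pool.Agent.MUP.fgc_centralizer_center hC h B

end Pool.Agent.Results.MP_388894_al.BraidedCase
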