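import Pool.Agent.MUP.Final

/-!
# MP_388894_al: in characteristic zero every Mueger centralizer in a Drinfeld center (and in every
# nondegenerate braided finite tensor category) with FGC satisfies FGC
-/

open CategoryTheory MonoidalCategory Limits Abelian

universe w w' v u a

attribute [local instance] CategoryTheory.Abelian.hasFiniteBiproducts

namespace Pool.Agent.Results.MP_388894_al.CharZero

open Pool.Agent.MUG

/-- Let `k` be an algebraically closed field of characteristic zero.

1. Let `C` be a finite tensor category over `k` whose Drinfeld center satisfies FGC, and `B` any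
   class of objects of the Drinfeld center. Then the centralizer of `B` satisfies FGC.
2. The same for every braided finite tensor category `Z` whose Mueger centre is trivial. -/
theorem result {k : Type a} [Field k] [IsAlgClosed k] [CharZero k] :
    (∀ (C : Type u) [Category.{v} C] [Abelian C] [Linear k C] [MonoidalCategory C]
      [MonoidalPreadditive C] [MonoidalLinear k C] [RigidCategory C] [HasExt.{w} (Center C)],
      IsFinite k C → FGC.{w} k (Center C) →
      ∀ (B : ObjectProperty (Center C)) [HasExt.{w'} (centralizer B).FullSubcategory],
        FGC.{w'} k (centralizer B).FullSubcategory) ∧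
    (∀ (Z : Type u) [Category.{v} Z] [Abelian Z] [Linear k Z] [MonoidalCategory Z]
      [MonoidalPreadditive Z] [MonoidalLinear k Z] [RigidCategory Z] [BraidedCategory Z]
      [HasExt.{w} Z], IsFinite k Z →
      (∀ X : Z, (∀ Y, Comm X Y) → ∃ n : ℕ, Nonempty (X ≅ ⨁ (fun _ : Fin n => 𝟙_ Z))) →
      FGC.{w} k Z →
      ∀ (B : ObjectProperty Z) [HasExt.{w'} (centralizer B).FullSubcategory],
        FGC.{w'} k (centralizer B).FullSubcategory) := by
  refine ⟨?_, ?_⟩
  · intro C _ _ _ _ _ _ _ _ hC hF B _
    exact Pool.Agent.MUP.fgc_centralizer_center hC hF B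
  · intro Z _ _ _ _ _ _ _ _ _ hZ hnd hF B _
    exact Pool.Agent.MUP.fgc_centralizer hZ hnd hF B

end Pool.Agent.Results.MP_388894_al.CharZero
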