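import Pool.Agent.RC40.ASM

/-!
# MP_388894_al: FGC for all Mueger centralizers in Drinfeld centers is equivalent to FGC for all
# Drinfeld centers, over every algebraically closed field
-/

open CategoryTheory MonoidalCategory Limits Abelian

universe w v u

namespace Pool.Agent.Results.MP_388894_al.ReductionToCenters

open Pool.Agent.MUG

/-- Let `k` be an algebraically closed field of any characteristic.

1. The following are equivalent: (a) for every finite tensor category `C` over `k` with FGC, the
Drinfeld center of `C` satisfies FGC; (b) for every finite tensor category `C` over `k` with FGC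
and every class `B` of objects of the Drinfeld center of `C`, the centralizer of `B` satisfies FGC.
2. If (a) holds, then every tensor subcategory `P` of every braided finite tensor category `Z` over
`k` with FGC satisfies FGC. -/
theorem result (k : Type w) [Field k] [IsAlgClosed k] :
    ((∀ (C : Type (max u v)) [Category.{v} C] [Abelian C] [Linear k C] [MonoidalCategory C]
      [MonoidalPreadditive C] [MonoidalLinear k C] [RigidCategory C] [HasExt.{max u v} C]
      [HasExt.{max u v} (Center C)], IsFinite k C → FGC.{max u v} k C →
      FGC.{max u v} k (Center C)) ↔
    (∀ (C : Type (max u v)) [Category.{v} C] [Abelian C] [Linear k C] [MonoidalCategory C]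
      [MonoidalPreadditive C] [MonoidalLinear k C] [RigidCategory C] [HasExt.{max u v} C],
      IsFinite k C → FGC.{max u v} k C → ∀ (B : ObjectProperty (Center C))
      [HasExt.{max u v} (centralizer B).FullSubcategory],
      FGC.{max u v} k (centralizer B).FullSubcategory)) ∧
    ((∀ (C : Type (max u v)) [Category.{v} C] [Abelian C] [Linear k C] [MonoidalCategory C]
      [MonoidalPreadditive C] [MonoidalLinear k C] [RigidCategory C] [HasExt.{max u v} C]
      [HasExt.{max u v} (Center C)], IsFinite k C → FGC.{max u v} k C →
      FGC.{max u v} k (Center C)) →
    (∀ (Z : Type (max u v)) [Category.{v} Z] [Abelian Z] [Linear k Z] [MonoidalCategory Z]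
      [MonoidalPreadditive Z] [MonoidalLinear k Z] [RigidCategory Z] [BraidedCategory Z]
      [HasExt.{max u v} Z], IsFinite k Z → FGC.{max u v} k Z →
      ∀ (P : ObjectProperty Z) [TensorSub P] [HasExt.{max u v} P.FullSubcategory],
      FGC.{max u v} k P.FullSubcategory)) :=
  ⟨Pool.Agent.RC40.fgc_centralizer_iff.{v, u, w} k, Pool.Agent.RC40.fgc_sub_of_center.{v, u, w} k⟩

end Pool.Agent.Results.MP_388894_al.ReductionToCenters
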