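import Pool.Agent.MUG.JB

/-!
# MP_388894_al: tensor subcategories with semisimple Mueger centre satisfy FGC
-/

open CategoryTheory MonoidalCategory Limits Abelian

universe w w' v u

namespace Pool.Agent.Results.MP_388894_al.SemisimpleCentre

open Pool.Agent.MUG

/-- Let `Z` be a braided finite tensor category over an algebraically closed field `k` of any
characteristic, which satisfies FGC, and let `D` be a tensor subcategory of `Z` whose Mueger
centre `D ⊓ centralizer D` is semisimple. If `k` has characteristic zero or this Mueger centre
has non-zero dimension in `k`, then `D` satisfies FGC. -/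
theorem result {k : Type*} [Field k] [IsAlgClosed k] {Z : Type u} [Category.{v} Z]
    [Abelian Z] [Linear k Z] [MonoidalCategory Z] [MonoidalPreadditive Z] [MonoidalLinear k Z]
    [RigidCategory Z] [BraidedCategory Z] [HasExt.{w} Z] (hZ : IsFinite k Z)
    (hF : FGC.{w} k Z) (D : ObjectProperty Z) [TensorSub D]
    (hss : SplitsEpis (D ⊓ centralizer D))
    (hdim : CharZero k ∨ DimNeZero k (D ⊓ centralizer D)) [HasExt.{w'} D.FullSubcategory] :
    FGC.{w'} k D.FullSubcategory :=
  theoremN_dim hZ hF D hss hdim

end Pool.Agent.Results.MP_388894_al.SemisimpleCentre
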